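import Mathlib

open Finset

namespace Pool.Agent.Results.MP_c71ca1_co.GreedyStaller

noncomputable section

open Classical in
/-- Load of the edge `E` under the cover function `t`. -/
def load {V : Type} (t : V → ℝ) (E : Finset V) : ℝ := min 1 (∑ v ∈ E, t v)

/-- The hypergraph with edge set `H` is fully covered by `t`. -/
def FullyCovered {V : Type} (H : Finset (Finset V)) (t : V → ℝ) : Prop :=
  ∀ E ∈ H, load t E = 1

/-- A finite or infinite sequence of submoves. Submove number `k` exists iff `k < len`;
it puts the weight `wt k` on the vertex `vtx k`. -/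
structure Move (V : Type) where
  len : ℕ∞
  vtx : ℕ → V
  wt : ℕ → ℝ

open Classical in
/-- The weight of submove `k`, and `0` if there is no submove `k`. -/
def Move.w {V : Type} (m : Move V) (k : ℕ) : ℝ := if (k : ℕ∞) < m.len then m.wt k else 0

/-- Total weight placed by the move. -/
def Move.total {V : Type} (m : Move V) : ℝ := ∑' k, m.w k

open Classical in
/-- The cover function after the move `m` is played at the cover function `t`. -/
def Move.next {V : Type} (m : Move V) (t : V → ℝ) : V → ℝ :=
  fun v => t v + ∑' k, if m.vtx k = v then m.w k else 0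

open Classical in
/-- Given the submoves of `m` before number `k`, it is legal to let submove number `k` put
weight `w` on the vertex `m.vtx k` (where `t` is the cover function before the move). -/
def LegalWeight {V : Type} (H : Finset (Finset V)) (t : V → ℝ) (m : Move V) (k : ℕ) (w : ℝ) :
    Prop :=
  0 ≤ w ∧ w ≤ 1 ∧ ∃ E ∈ H, m.vtx k ∈ E ∧
    load t E + (∑ s ∈ (range k).filter (fun s => m.vtx s ∈ E), m.wt s) + w ≤ 1

/-- `m` is a legal move at the cover function `t`: all its submoves are legal, and its weights
sum to exactly `1`, or to at most `1` if it ends the game. -/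
def IsMove {V : Type} (H : Finset (Finset V)) (t : V → ℝ) (m : Move V) : Prop :=
  (∀ k : ℕ, (k : ℕ∞) < m.len → LegalWeight H t m k (m.wt k)) ∧ Summable m.w ∧
    (m.total = 1 ∨ (m.total ≤ 1 ∧ FullyCovered H (m.next t)))

/-- Every submove of `m` has the largest legal weight: the largest weight that keeps the
submove legal and does not exceed the budget still unspent in the move. -/
def GreedyMove {V : Type} (H : Finset (Finset V)) (t : V → ℝ) (m : Move V) : Prop :=
  ∀ k : ℕ, (k : ℕ∞) < m.len →
    IsGreatest {w : ℝ | LegalWeight H t m k w ∧ w ≤ 1 - ∑ s ∈ range k, m.wt s} (m.wt k)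

/-- The cover function reached from `t0` after the moves of the list `h` (in this order). -/
def pos {V : Type} (t0 : V → ℝ) (h : List (Move V)) : V → ℝ :=
  h.foldl (fun t m => m.next t) t0

/-- `h` lists moves that were legally played one after another, the game not having ended
before any of them. -/
def History {V : Type} (H : Finset (Finset V)) (t0 : V → ℝ) (h : List (Move V)) : Prop :=
  ∀ (i : ℕ) (hi : i < h.length),
    ¬ FullyCovered H (pos t0 (h.take i)) ∧ IsMove H (pos t0 (h.take i)) h[i]

/-- A complete play: the game has ended. -/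
def CompletePlay {V : Type} (H : Finset (Finset V)) (t0 : V → ℝ) (h : List (Move V)) : Prop :=
  History H t0 h ∧ FullyCovered H (pos t0 h)

/-- The value of a play: the total weight added. -/
def playValue {V : Type} (h : List (Move V)) : ℝ := (h.map Move.total).sum

/-- Move number `i` (counted from `0`) is Staller's. -/
def StallerTurn (stallerFirst : Bool) (i : ℕ) : Prop :=
  if stallerFirst = true then Even i else Odd i

/-- A strategy of Staller chooses a move from the list of all earlier moves. -/
abbrev Strategy (V : Type) := List (Move V) → Move V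

/-- In `h`, Staller follows `σ` (Edge-hitter plays arbitrarily). -/
def Follows {V : Type} (stallerFirst : Bool) (σ : Strategy V) (h : List (Move V)) : Prop :=
  ∀ (i : ℕ) (hi : i < h.length), StallerTurn stallerFirst i → h[i] = σ (h.take i)

/-- `h` is a position, reachable when Staller follows `σ`, at which Staller has to move. -/
def StallerToMove {V : Type} (H : Finset (Finset V)) (t0 : V → ℝ) (stallerFirst : Bool)
    (σ : Strategy V) (h : List (Move V)) : Prop :=
  History H t0 h ∧ Follows stallerFirst σ h ∧ ¬ FullyCovered H (pos t0 h) ∧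
    StallerTurn stallerFirst h.length

/-- `σ` always tells Staller to make a legal move. -/
def LegalStrategy {V : Type} (H : Finset (Finset V)) (t0 : V → ℝ) (stallerFirst : Bool)
    (σ : Strategy V) : Prop :=
  ∀ h, StallerToMove H t0 stallerFirst σ h → IsMove H (pos t0 h) (σ h)

/-- `σ` only uses submoves with the largest legal weight. -/
def GreedyStrategy {V : Type} (H : Finset (Finset V)) (t0 : V → ℝ) (stallerFirst : Bool)
    (σ : Strategy V) : Prop :=
  ∀ h, StallerToMove H t0 stallerFirst σ h → GreedyMove H (pos t0 h) (σ h)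

/-- `σ` guarantees the value `c` against every play of Edge-hitter. -/
def Guarantees {V : Type} (H : Finset (Finset V)) (t0 : V → ℝ) (stallerFirst : Bool)
    (σ : Strategy V) (c : ℝ) : Prop :=
  ∀ h, CompletePlay H t0 h → Follows stallerFirst σ h → c ≤ playValue h

/-- `σ` is an optimal strategy of Staller: it is a legal strategy and it guarantees every
value that Staller can guarantee at all. -/
def Optimal {V : Type} (H : Finset (Finset V)) (t0 : V → ℝ) (stallerFirst : Bool)
    (σ : Strategy V) : Prop :=
  LegalStrategy H t0 stallerFirst σ ∧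
    ∀ (σ' : Strategy V) (c : ℝ), LegalStrategy H t0 stallerFirst σ' →
      Guarantees H t0 stallerFirst σ' c → Guarantees H t0 stallerFirst σ c


/-! ### General facts about moves -/

section general

variable {V : Type} {H : Finset (Finset V)} {t t0 : V → ℝ} {m : Move V} {h : List (Move V)}

theorem IsMove.w_nonneg (hm : IsMove H t m) (k : ℕ) : 0 ≤ m.w k := by
  unfold Move.w
  split_ifs with hk
  · exact (hm.1 k hk).1
  · exact le_rfl

open Classical in
theorem IsMove.le_next (hm : IsMove H t m) (v : V) : t v ≤ m.next t v := by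
  unfold Move.next
  have : 0 ≤ ∑' k, (if m.vtx k = v then m.w k else 0) := by
    apply tsum_nonneg
    intro k
    split_ifs
    · exact hm.w_nonneg k
    · exact le_rfl
  linarith

open Classical in
theorem IsMove.sum_next (hm : IsMove H t m) (E : Finset V) :
    ∑ v ∈ E, m.next t v = ∑ v ∈ E, t v + ∑' k, (if m.vtx k ∈ E then m.w k else 0) := by
  unfold Move.next
  rw [Finset.sum_add_distrib]
  congr 1
  rw [← Summable.tsum_finsetSum]
  · apply tsum_congr
    intro k
    rw [Finset.sum_ite_eq]
  · intro v _
    apply Summable.of_nonneg_of_le _ _ hm.2.1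
    · intro k
      split_ifs
      · exact hm.w_nonneg k
      · exact le_rfl
    · intro k
      split_ifs
      · exact le_rfl
      · exact hm.w_nonneg k

theorem IsMove.total_le (hm : IsMove H t m) : m.total ≤ 1 := by
  rcases hm.2.2 with h | h
  · exact h.le
  · exact h.1

theorem pos_take_succ (i : ℕ) (hi : i < h.length) :
    pos t0 (h.take (i + 1)) = (h[i]).next (pos t0 (h.take i)) := by
  unfold pos
  rw [List.take_succ_eq_append_getElem hi, List.foldl_append]
  rfl

theorem History.mono (hH : History H t0 h) {i j : ℕ} (hij : i ≤ j) (hj : j ≤ h.length) (v : V) :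
    pos t0 (h.take i) v ≤ pos t0 (h.take j) v := by
  induction j, hij using Nat.le_induction with
  | base => exact le_rfl
  | succ j hij ih =>
    have hj' : j < h.length := hj
    refine (ih hj'.le).trans ?_
    rw [pos_take_succ j hj']
    exact (hH j hj').2.le_next v

theorem History.sum_pos [Fintype V] (hH : History H t0 h) (i : ℕ) (hi : i ≤ h.length) :
    ∑ v, pos t0 (h.take i) v = ∑ v, t0 v + playValue (h.take i) := by
  induction i with
  | zero => simp [pos, playValue]
  | succ i ih =>
    have hi' : i < h.length := hi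
    rw [pos_take_succ i hi', (hH i hi').2.sum_next, ih hi'.le, List.take_succ_eq_append_getElem hi']
    simp only [playValue, List.map_append, List.sum_append, List.map_cons, List.map_nil,
      List.sum_cons, List.sum_nil, add_zero, Finset.mem_univ, if_true, Move.total, add_assoc]

theorem History.value_le (hH : History H t0 h) (i : ℕ) (hi : i ≤ h.length) :
    playValue (h.take i) ≤ i := by
  induction i with
  | zero => simp [playValue]
  | succ i ih =>
    have hi' : i < h.length := hi
    have h1 := ih hi'.le
    have h2 := (hH i hi').2.total_le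
    rw [List.take_succ_eq_append_getElem hi']
    simp only [playValue, List.map_append, List.sum_append, List.map_cons, List.map_nil,
      List.sum_cons, List.sum_nil, add_zero] at h1 ⊢
    push_cast
    linarith

open Classical in
theorem IsMove.next_le_one (hm : IsMove H t m) (ht : ∀ v, 0 ≤ t v ∧ t v ≤ 1) (v : V) :
    m.next t v ≤ 1 := by
  have hpart : ∀ n : ℕ, t v + ∑ k ∈ range n, (if m.vtx k = v then m.w k else 0) ≤ 1 := by
    intro n
    induction n with
    | zero => simpa using (ht v).2
    | succ n ih =>
      rw [Finset.sum_range_succ]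
      by_cases hv : m.vtx n = v
      · by_cases hn : (n : ℕ∞) < m.len
        · obtain ⟨h0, h1, E, hE, hvE, hle⟩ := hm.1 n hn
          have hwn : m.w n = m.wt n := by
            unfold Move.w
            rw [if_pos hn]
          have hw : ∀ s < n, m.w s = m.wt s := by
            intro s hs
            unfold Move.w
            rw [if_pos (lt_trans (by exact_mod_cast hs) hn)]
          have hnn : ∀ s < n, 0 ≤ m.wt s := by
            intro s hs
            rw [← hw s hs]
            exact hm.w_nonneg s
          have hs1 : ∑ k ∈ range n, (if m.vtx k = v then m.w k else 0) ≤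
              ∑ s ∈ (range n).filter (fun s => m.vtx s ∈ E), m.wt s := by
            rw [Finset.sum_filter]
            apply Finset.sum_le_sum
            intro s hs
            have hs' : s < n := by simpa using hs
            by_cases h2 : m.vtx s = v
            · rw [if_pos h2, hw s hs', if_pos (by rw [h2, ← hv]; exact hvE)]
            · rw [if_neg h2]
              split_ifs
              · exact hnn s hs'
              · exact le_rfl
          have hs2 : 0 ≤ ∑ s ∈ (range n).filter (fun s => m.vtx s ∈ E), m.wt s := by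
            apply Finset.sum_nonneg
            intro s hs
            exact hnn s (by simpa using (Finset.mem_filter.mp hs).1)
          rw [if_pos hv, hwn]
          rcases le_total 1 (∑ u ∈ E, t u) with h3 | h3
          · have : load t E = 1 := min_eq_left h3
            rw [this] at hle
            linarith
          · have h4 : load t E = ∑ u ∈ E, t u := min_eq_right h3
            have h5 : t v ≤ ∑ u ∈ E, t u :=
              Finset.single_le_sum (f := t) (fun u _ => (ht u).1) (by rw [← hv]; exact hvE)
            rw [h4] at hle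
            linarith
        · have : m.w n = 0 := by
            unfold Move.w
            rw [if_neg hn]
          rw [this]
          simpa using ih
      · rw [if_neg hv]
        simpa using ih
  unfold Move.next
  have := Real.tsum_le_of_sum_range_le (f := fun k => if m.vtx k = v then m.w k else 0)
    (c := 1 - t v) (fun k => by
      split_ifs
      · exact hm.w_nonneg k
      · exact le_rfl) (fun n => by linarith [hpart n])
  linarith

theorem History.pos_mem (hH : History H t0 h) (ht : ∀ v, 0 ≤ t0 v ∧ t0 v ≤ 1) (i : ℕ)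
    (hi : i ≤ h.length) (v : V) : 0 ≤ pos t0 (h.take i) v ∧ pos t0 (h.take i) v ≤ 1 := by
  induction i generalizing v with
  | zero => simpa [pos] using ht v
  | succ i ih =>
    have hi' : i < h.length := hi
    rw [pos_take_succ i hi']
    exact ⟨(ih hi'.le v).1.trans ((hH i hi').2.le_next v),
      (hH i hi').2.next_le_one (fun u => ih hi'.le u) v⟩

/-- The game always ends: there are at most `|V| + 1` moves. -/
theorem History.length_le [Fintype V] (hH : History H t0 h) (ht : ∀ v, 0 ≤ t0 v ∧ t0 v ≤ 1) :
    h.length ≤ Fintype.card V + 1 := by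
  have hval : ∀ i : ℕ, i + 1 ≤ h.length → playValue (h.take i) = i := by
    intro i
    induction i with
    | zero => intro _; simp [playValue]
    | succ i ih =>
      intro hi
      have hi' : i < h.length := by omega
      have h1 := ih (by omega)
      have h2 : (h[i]).total = 1 := by
        rcases (hH i hi').2.2.2 with hx | hx
        · exact hx
        · exfalso
          rw [← pos_take_succ] at hx
          exact (hH (i + 1) hi).1 hx.2
      rw [List.take_succ_eq_append_getElem hi']
      simp only [playValue, List.map_append, List.sum_append, List.map_cons, List.map_nil,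
        List.sum_cons, List.sum_nil, add_zero, h2] at h1 ⊢
      rw [h1]
      push_cast
      ring
  by_contra hcon
  push Not at hcon
  have h1 := hval (h.length - 1) (by omega)
  have h2 := hH.sum_pos (h.length - 1) (by omega)
  have h3 : ∑ v, pos t0 (h.take (h.length - 1)) v ≤ ∑ _v : V, (1 : ℝ) :=
    Finset.sum_le_sum (fun v _ => (hH.pos_mem ht _ (by omega) v).2)
  have h4 : 0 ≤ ∑ v, t0 v := Finset.sum_nonneg (fun v _ => (ht v).1)
  rw [Finset.sum_const, Finset.card_univ, nsmul_eq_mul, mul_one] at h3
  have h5 : ((h.length - 1 : ℕ) : ℝ) ≤ (Fintype.card V : ℝ) := by linarith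
  have h6 : h.length - 1 ≤ Fintype.card V := by exact_mod_cast h5
  omega

end general

/-! ### Finite moves and their completions -/

section finite

variable {V : Type} {H : Finset (Finset V)} {t : V → ℝ}

open Classical in
/-- Weight put on the edge `E` by the first `n` submoves. -/
def acc (vtx : ℕ → V) (wt : ℕ → ℝ) (n : ℕ) (E : Finset V) : ℝ :=
  ∑ s ∈ (range n).filter (fun s => vtx s ∈ E), wt s

/-- The finite sequence of submoves of length `n`. -/
def fin (n : ℕ) (vtx : ℕ → V) (wt : ℕ → ℝ) : Move V := ⟨n, vtx, wt⟩

theorem fin_w (n : ℕ) (vtx : ℕ → V) (wt : ℕ → ℝ) (k : ℕ) :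
    (fin n vtx wt).w k = if k < n then wt k else 0 := by
  simp [fin, Move.w]

theorem fin_summable (n : ℕ) (vtx : ℕ → V) (wt : ℕ → ℝ) : Summable (fin n vtx wt).w := by
  apply summable_of_ne_finset_zero (s := range n)
  intro k hk
  rw [fin_w, if_neg]
  simpa using hk

theorem fin_total (n : ℕ) (vtx : ℕ → V) (wt : ℕ → ℝ) :
    (fin n vtx wt).total = ∑ k ∈ range n, wt k := by
  unfold Move.total
  rw [tsum_eq_sum (s := range n)]
  · apply Finset.sum_congr rfl
    intro k hk
    rw [fin_w, if_pos (by simpa using hk)]
  · intro k hk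
    rw [fin_w, if_neg (by simpa using hk)]

open Classical in
theorem fin_acc (n : ℕ) (vtx : ℕ → V) (wt : ℕ → ℝ) (E : Finset V) :
    ∑' k, (if (fin n vtx wt).vtx k ∈ E then (fin n vtx wt).w k else 0) = acc vtx wt n E := by
  unfold acc
  rw [Finset.sum_filter, tsum_eq_sum (s := range n)]
  · apply Finset.sum_congr rfl
    intro k hk
    rw [fin_w, if_pos (show k < n by simpa using hk)]
    rfl
  · intro k hk
    rw [fin_w, if_neg (show ¬ k < n by simpa using hk)]
    simp

/-- Legality of the first `n` submoves. -/
def Leg (H : Finset (Finset V)) (t : V → ℝ) (vtx : ℕ → V) (wt : ℕ → ℝ) (n : ℕ) : Prop :=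
  ∀ k < n, 0 ≤ wt k ∧ wt k ≤ 1 ∧ ∃ E ∈ H, vtx k ∈ E ∧ load t E + acc vtx wt k E + wt k ≤ 1

theorem acc_congr {vtx vtx' : ℕ → V} {wt wt' : ℕ → ℝ} {n : ℕ}
    (h : ∀ k < n, vtx' k = vtx k ∧ wt' k = wt k) (E : Finset V) :
    acc vtx' wt' n E = acc vtx wt n E := by
  classical
  unfold acc
  rw [Finset.sum_filter, Finset.sum_filter]
  apply Finset.sum_congr rfl
  intro k hk
  have := h k (by simpa using hk)
  rw [this.1, this.2]

theorem acc_succ (vtx : ℕ → V) (wt : ℕ → ℝ) (n : ℕ) (E : Finset V) [Decidable (vtx n ∈ E)] :
    acc vtx wt (n + 1) E = acc vtx wt n E + if vtx n ∈ E then wt n else 0 := by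
  classical
  unfold acc
  rw [Finset.sum_filter, Finset.sum_filter, Finset.sum_range_succ]
  congr 1
  split_ifs <;> rfl

theorem acc_mono {vtx : ℕ → V} {wt : ℕ → ℝ} {n n' : ℕ} (hn : n ≤ n')
    (hw : ∀ k < n', 0 ≤ wt k) (E : Finset V) : acc vtx wt n E ≤ acc vtx wt n' E := by
  classical
  unfold acc
  apply Finset.sum_le_sum_of_subset_of_nonneg
  · intro k hk
    simp only [mem_filter, mem_range] at hk ⊢
    exact ⟨by omega, hk.2⟩
  · intro k hk _
    simp only [mem_filter, mem_range] at hk
    exact hw k hk.1

theorem Leg.isMove {vtx : ℕ → V} {wt : ℕ → ℝ} {n : ℕ} (hl : Leg H t vtx wt n)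
    (hs : (∑ k ∈ range n, wt k) = 1 ∨
      ((∑ k ∈ range n, wt k) ≤ 1 ∧ FullyCovered H ((fin n vtx wt).next t))) :
    IsMove H t (fin n vtx wt) := by
  refine ⟨?_, fin_summable n vtx wt, ?_⟩
  · intro k hk
    have hk' : k < n := by simpa [fin] using hk
    obtain ⟨h0, h1, E, hE, hv, hle⟩ := hl k hk'
    exact ⟨h0, h1, E, hE, hv, hle⟩
  · rw [fin_total]
    exact hs

/-- Submove `k` has the largest legal weight. -/
def GrAt (H : Finset (Finset V)) (t : V → ℝ) (vtx : ℕ → V) (wt : ℕ → ℝ) (k : ℕ) : Prop :=
  ∀ w, 0 ≤ w → w ≤ 1 → (∃ E ∈ H, vtx k ∈ E ∧ load t E + acc vtx wt k E + w ≤ 1) →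
    w ≤ 1 - ∑ s ∈ range k, wt s → w ≤ wt k

/-- The sequence can be continued, by submoves of the largest legal weight, until the budget is
used up or everything is covered. -/
theorem Leg.complete (hH : ∅ ∉ H) :
    ∀ (N : ℕ) (vtx : ℕ → V) (wt : ℕ → ℝ) (n : ℕ), Leg H t vtx wt n →
      (∑ k ∈ range n, wt k) ≤ 1 →
      (H.filter (fun E => load t E + acc vtx wt n E < 1)).card ≤ N →
      ∃ (vtx' : ℕ → V) (wt' : ℕ → ℝ) (n' : ℕ), n ≤ n' ∧
        (∀ k < n, vtx' k = vtx k ∧ wt' k = wt k) ∧ Leg H t vtx' wt' n' ∧
        ((∑ k ∈ range n', wt' k) = 1 ∨ ((∑ k ∈ range n', wt' k) ≤ 1 ∧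
          ∀ E ∈ H, 1 ≤ load t E + acc vtx' wt' n' E)) ∧
        (∑ k ∈ range n', wt' k) ≤ 1 ∧ ∀ k, n ≤ k → k < n' → GrAt H t vtx' wt' k := by
  classical
  intro N
  induction N with
  | zero =>
    intro vtx wt n hl hs hc
    refine ⟨vtx, wt, n, le_rfl, fun k _ => ⟨rfl, rfl⟩, hl, Or.inr ⟨hs, ?_⟩, hs,
      fun k h1 h2 => absurd h1 (by omega)⟩
    intro E hE
    by_contra hlt
    push Not at hlt
    have : E ∈ H.filter (fun E => load t E + acc vtx wt n E < 1) := by
      simp [hE, hlt]
    have := Finset.card_pos.mpr ⟨E, this⟩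
    omega
  | succ N ih =>
    intro vtx wt n hl hs hc
    by_cases hfull : ∀ E ∈ H, 1 ≤ load t E + acc vtx wt n E
    · exact ⟨vtx, wt, n, le_rfl, fun k _ => ⟨rfl, rfl⟩, hl, Or.inr ⟨hs, hfull⟩, hs,
        fun k h1 h2 => absurd h1 (by omega)⟩
    push Not at hfull
    obtain ⟨E1, hE1, hlt1⟩ := hfull
    obtain ⟨v, hv1⟩ : E1.Nonempty := by
      rw [Finset.nonempty_iff_ne_empty]
      rintro rfl
      exact hH hE1
    -- the least loaded edge at `v`
    obtain ⟨E, hEm, hmin⟩ := Finset.exists_min_image (H.filter (fun F => v ∈ F))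
      (fun F => load t F + acc vtx wt n F) ⟨E1, by simp [hE1, hv1]⟩
    have hE : E ∈ H := (Finset.mem_filter.mp hEm).1
    have hv : v ∈ E := (Finset.mem_filter.mp hEm).2
    have hmin' : ∀ F ∈ H, v ∈ F → load t E + acc vtx wt n E ≤ load t F + acc vtx wt n F := by
      intro F hF hvF
      exact hmin F (Finset.mem_filter.mpr ⟨hF, hvF⟩)
    have hlt : load t E + acc vtx wt n E < 1 := lt_of_le_of_lt (hmin' E1 hE1 hv1) hlt1
    set w : ℝ := min (1 - ∑ k ∈ range n, wt k) (1 - (load t E + acc vtx wt n E)) with hw
    have hw0 : 0 ≤ w := le_min (by linarith) (by linarith)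
    have hsn : 0 ≤ ∑ k ∈ range n, wt k :=
      Finset.sum_nonneg (fun k hk => (hl k (by simpa using hk)).1)
    have hw1 : w ≤ 1 := (min_le_left _ _).trans (by linarith)
    let vtx1 := Function.update vtx n v
    let wt1 := Function.update wt n w
    have hag : ∀ k < n, vtx1 k = vtx k ∧ wt1 k = wt k := by
      intro k hk
      exact ⟨Function.update_of_ne hk.ne _ _, Function.update_of_ne hk.ne _ _⟩
    have hvn : vtx1 n = v := Function.update_self _ _ _
    have hwn : wt1 n = w := Function.update_self _ _ _
    have hagk : ∀ k ≤ n, ∀ F, acc vtx1 wt1 k F = acc vtx wt k F := by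
      intro k hk F
      exact acc_congr (fun j hj => hag j (by omega)) F
    have hl1 : Leg H t vtx1 wt1 (n + 1) := by
      intro k hk
      rcases Nat.lt_succ_iff_lt_or_eq.mp hk with hk' | rfl
      · obtain ⟨a, b, F, hF, hvF, hle⟩ := hl k hk'
        rw [(hag k hk').1, (hag k hk').2]
        refine ⟨a, b, F, hF, hvF, ?_⟩
        rw [hagk k hk'.le]
        exact hle
      · rw [hvn, hwn]
        refine ⟨hw0, hw1, E, hE, hv, ?_⟩
        rw [hagk k le_rfl]
        have := min_le_right (1 - ∑ k ∈ range k, wt k) (1 - (load t E + acc vtx wt k E))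
        linarith
    have hsum1' : ∑ k ∈ range n, wt1 k = ∑ k ∈ range n, wt k :=
      Finset.sum_congr rfl (fun k hk => (hag k (by simpa using hk)).2)
    have hsum1 : ∑ k ∈ range (n + 1), wt1 k = ∑ k ∈ range n, wt k + w := by
      rw [Finset.sum_range_succ, hwn, hsum1']
    have hs1 : ∑ k ∈ range (n + 1), wt1 k ≤ 1 := by
      rw [hsum1]
      have := min_le_left (1 - ∑ k ∈ range n, wt k) (1 - (load t E + acc vtx wt n E))
      linarith
    have hgr : GrAt H t vtx1 wt1 n := by
      intro w' _ _ hex hbud
      obtain ⟨F, hF, hvF, hle⟩ := hex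
      rw [hvn] at hvF
      rw [hagk n le_rfl] at hle
      rw [hsum1'] at hbud
      rw [hwn]
      exact le_min hbud (by linarith [hmin' F hF hvF])
    rcases min_choice (1 - ∑ k ∈ range n, wt k) (1 - (load t E + acc vtx wt n E)) with hc1 | hc1
    · refine ⟨vtx1, wt1, n + 1, Nat.le_succ n, hag, hl1, Or.inl ?_, hs1, ?_⟩
      · rw [hsum1, hw, hc1]
        ring
      · intro k h1 h2
        obtain rfl : k = n := by omega
        exact hgr
    · have hcard : (H.filter (fun F => load t F + acc vtx1 wt1 (n + 1) F < 1)).card ≤ N := by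
        have hsub : H.filter (fun F => load t F + acc vtx1 wt1 (n + 1) F < 1) ⊂
            H.filter (fun F => load t F + acc vtx wt n F < 1) := by
          rw [Finset.ssubset_iff_of_subset]
          · refine ⟨E, by simp [hE, hlt], ?_⟩
            simp only [mem_filter, hE, true_and, not_lt]
            rw [acc_succ, hvn, if_pos hv, hwn, hagk n le_rfl, hw, hc1]
            linarith
          · intro F hF
            simp only [mem_filter] at hF ⊢
            refine ⟨hF.1, lt_of_le_of_lt ?_ hF.2⟩
            rw [acc_succ, hvn, hwn, hagk n le_rfl]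
            have : 0 ≤ if v ∈ F then w else 0 := by
              split_ifs
              · exact hw0
              · exact le_rfl
            linarith
        have := Finset.card_lt_card hsub
        omega
      obtain ⟨vtx', wt', n', hn', hag', hl', hfin, hs', hgr'⟩ :=
        ih vtx1 wt1 (n + 1) hl1 hs1 hcard
      refine ⟨vtx', wt', n', by omega, ?_, hl', hfin, hs', ?_⟩
      · intro k hk
        rw [(hag' k (by omega)).1, (hag' k (by omega)).2]
        exact hag k hk
      · intro k h1 h2
        rcases Nat.eq_or_lt_of_le h1 with rfl | h1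
        · intro w' a b hex hbud
          obtain ⟨F, hF, hvF, hle⟩ := hex
          rw [(hag' n (by omega)).1] at hvF
          rw [acc_congr (fun j hj => hag' j (by omega)) F] at hle
          rw [(hag' n (by omega)).2]
          refine hgr w' a b ⟨F, hF, hvF, hle⟩ ?_
          rw [Finset.sum_congr rfl (fun j hj => (hag' j (by
            have := Finset.mem_range.mp hj
            omega)).2)] at hbud
          exact hbud
        · exact hgr' k h1 h2

open Classical in
theorem Leg.sum_next {vtx : ℕ → V} {wt : ℕ → ℝ} {n : ℕ} (hl : Leg H t vtx wt n) (E : Finset V) :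
    ∑ v ∈ E, (fin n vtx wt).next t v = ∑ v ∈ E, t v + acc vtx wt n E := by
  have hnn : ∀ k, 0 ≤ (fin n vtx wt).w k := by
    intro k
    rw [fin_w]
    split_ifs with hk
    · exact (hl k hk).1
    · exact le_rfl
  unfold Move.next
  rw [Finset.sum_add_distrib, ← fin_acc]
  congr 1
  rw [← Summable.tsum_finsetSum]
  · apply tsum_congr
    intro k
    rw [Finset.sum_ite_eq]
  · intro v _
    apply Summable.of_nonneg_of_le _ _ (fin_summable n vtx wt)
    · intro k
      split_ifs
      · exact hnn k
      · exact le_rfl
    · intro k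
      split_ifs
      · exact le_rfl
      · exact hnn k

theorem Leg.isMove' {vtx : ℕ → V} {wt : ℕ → ℝ} {n : ℕ} (hl : Leg H t vtx wt n)
    (hfin : (∑ k ∈ range n, wt k) = 1 ∨ ((∑ k ∈ range n, wt k) ≤ 1 ∧
      ∀ E ∈ H, 1 ≤ load t E + acc vtx wt n E)) : IsMove H t (fin n vtx wt) := by
  apply hl.isMove
  rcases hfin with h1 | ⟨h1, h2⟩
  · exact Or.inl h1
  · refine Or.inr ⟨h1, ?_⟩
    intro E hE
    unfold load
    rw [hl.sum_next]
    apply min_eq_left
    have h3 := h2 E hE
    have h4 : load t E ≤ ∑ v ∈ E, t v := min_le_right _ _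
    linarith

/-- A legal beginning of a move extends to a move; weight on `F` only grows. -/
theorem Leg.extend (hH : ∅ ∉ H) {vtx : ℕ → V} {wt : ℕ → ℝ} {n : ℕ}
    (hl : Leg H t vtx wt n) (hs : (∑ k ∈ range n, wt k) ≤ 1) (F : Finset V) :
    ∃ m : Move V, IsMove H t m ∧
      ∑ v ∈ F, t v + acc vtx wt n F ≤ ∑ v ∈ F, m.next t v := by
  obtain ⟨vtx', wt', n', hn', hag', hl', hfin, -, -⟩ := Leg.complete hH _ vtx wt n hl hs le_rfl
  refine ⟨_, hl'.isMove' hfin, ?_⟩
  rw [hl'.sum_next]
  have h5 : acc vtx wt n F = acc vtx' wt' n F := (acc_congr hag' F).symm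
  have h6 : acc vtx' wt' n F ≤ acc vtx' wt' n' F :=
    acc_mono hn' (fun k hk => (hl' k hk).1) F
  linarith

/-- At every cover function there is a legal move all of whose submoves have the largest legal
weight. -/
theorem exists_greedy_move (hH : ∅ ∉ H) [Inhabited V] :
    ∃ m : Move V, IsMove H t m ∧ GreedyMove H t m := by
  obtain ⟨vtx, wt, n, -, -, hl, hfin, hs, hgr⟩ :=
    Leg.complete (H := H) (t := t) hH _ (fun _ => default) (fun _ => 0) 0
      (fun k hk => absurd hk (Nat.not_lt_zero k)) (by simp) le_rfl
  refine ⟨fin n vtx wt, hl.isMove' hfin, ?_⟩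
  intro k hk
  have hk' : k < n := by simpa [fin] using hk
  constructor
  · obtain ⟨h0, h1, E, hE, hv, hle⟩ := hl k hk'
    refine ⟨⟨h0, h1, E, hE, hv, hle⟩, ?_⟩
    have h2 : ∑ s ∈ range (k + 1), wt s ≤ ∑ s ∈ range n, wt s := by
      apply Finset.sum_le_sum_of_subset_of_nonneg
      · intro s hs
        simp only [mem_range] at hs ⊢
        omega
      · intro s hs _
        exact (hl s (by simpa using hs)).1
    rw [Finset.sum_range_succ] at h2
    show wt k ≤ 1 - ∑ s ∈ range k, wt s
    linarith
  · intro w hw
    obtain ⟨⟨h0, h1, E, hE, hv, hle⟩, hbud⟩ := hw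
    exact hgr k (Nat.zero_le k) hk' w h0 h1 ⟨E, hE, hv, hle⟩ hbud

theorem exists_move (hH : ∅ ∉ H) [Inhabited V] : ∃ m : Move V, IsMove H t m := by
  obtain ⟨m, hm, -⟩ := exists_greedy_move (t := t) hH
  exact ⟨m, hm⟩

/-- A legal greedy strategy exists. -/
theorem exists_greedy_strategy (hH : ∅ ∉ H) [Inhabited V] (t0 : V → ℝ) (b : Bool) :
    ∃ σ, LegalStrategy H t0 b σ ∧ GreedyStrategy H t0 b σ :=
  ⟨fun h => (exists_greedy_move (t := pos t0 h) hH).choose,
    fun h _ => (exists_greedy_move (t := pos t0 h) hH).choose_spec.1,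
    fun h _ => (exists_greedy_move (t := pos t0 h) hH).choose_spec.2⟩

end finite

/-! ### The hypergraph -/

/-- Vertices `0,1,2,3,4`; edges `{0}, {1}, {2}, {0,3}, {1,4}, {3,4}`. -/
def H0 : Finset (Finset (Fin 5)) := {{0}, {1}, {2}, {0, 3}, {1, 4}, {3, 4}}

theorem empty_notMem : ∅ ∉ H0 := by decide

theorem covered_iff (t : Fin 5 → ℝ) : FullyCovered H0 t ↔
    1 ≤ t 0 ∧ 1 ≤ t 1 ∧ 1 ≤ t 2 ∧ 1 ≤ t 0 + t 3 ∧ 1 ≤ t 1 + t 4 ∧ 1 ≤ t 3 + t 4 := by
  unfold FullyCovered load H0
  simp

/-! ### Greedy play at integral positions -/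

/-- Indicator function of `S`. -/
def ind (S : Finset (Fin 5)) : Fin 5 → ℝ := fun v => if v ∈ S then 1 else 0

theorem ind_empty : ind ∅ = fun _ => 0 := by
  funext v
  simp [ind]

theorem sum_ind (S E : Finset (Fin 5)) : ∑ v ∈ E, ind S v = ((E ∩ S).card : ℝ) := by
  unfold ind
  rw [Finset.sum_ite_mem]
  simp

theorem load_ind_disj {S E : Finset (Fin 5)} (h : Disjoint E S) : load (ind S) E = 0 := by
  unfold load
  rw [sum_ind, Finset.disjoint_iff_inter_eq_empty.mp h]
  simp

theorem load_ind_not_disj {S E : Finset (Fin 5)} (h : ¬ Disjoint E S) : load (ind S) E = 1 := by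
  unfold load
  rw [sum_ind]
  apply min_eq_left
  rw [Finset.disjoint_iff_inter_eq_empty] at h
  have := Finset.card_pos.mpr (Finset.nonempty_iff_ne_empty.mpr h)
  exact_mod_cast this

theorem covered_ind (H : Finset (Finset (Fin 5))) (S : Finset (Fin 5)) :
    FullyCovered H (ind S) ↔ ∀ E ∈ H, ¬ Disjoint E S := by
  constructor
  · intro h E hE hd
    have := h E hE
    rw [load_ind_disj hd] at this
    exact zero_ne_one this
  · intro h E hE
    exact load_ind_not_disj (h E hE)

theorem ind_insert {S : Finset (Fin 5)} {u : Fin 5} (hu : u ∉ S) (v : Fin 5) :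
    ind (insert u S) v = ind S v + if u = v then 1 else 0 := by
  unfold ind
  by_cases h : u = v
  · subst h
    simp [hu]
  · have h' : ¬ v = u := fun e => h e.symm
    simp [h, h', Finset.mem_insert]

theorem greedy_step {H : Finset (Finset (Fin 5))} {S : Finset (Fin 5)} {m : Move (Fin 5)}
    (hm : IsMove H (ind S) m) (hg : GreedyMove H (ind S) m) (hn : ¬ FullyCovered H (ind S)) :
    ∃ v, (∃ E ∈ H, v ∈ E ∧ Disjoint E S) ∧ m.next (ind S) = ind (insert v S) ∧
      m.total = 1 := by
  classical
  have hex : ∃ k, m.w k ≠ 0 := by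
    by_contra hcon
    push Not at hcon
    have ht : m.total = 0 := by
      unfold Move.total
      simp [hcon]
    have hnx : m.next (ind S) = ind S := by
      funext v
      unfold Move.next
      simp [hcon]
    rcases hm.2.2 with h1 | h1
    · rw [ht] at h1
      exact zero_ne_one h1
    · rw [hnx] at h1
      exact hn h1.2
  let k := Nat.find hex
  have hk : m.w k ≠ 0 := Nat.find_spec hex
  have hlt : (k : ℕ∞) < m.len := by
    by_contra hcon
    apply hk
    unfold Move.w
    rw [if_neg hcon]
  have hwk : m.w k = m.wt k := by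
    unfold Move.w
    rw [if_pos hlt]
  have hbefore : ∀ s < k, m.wt s = 0 := by
    intro s hs
    have h1 : m.w s = 0 := by
      have := Nat.find_min hex hs
      push Not at this
      exact this
    have h2 : (s : ℕ∞) < m.len := lt_trans (by exact_mod_cast hs) hlt
    unfold Move.w at h1
    rw [if_pos h2] at h1
    exact h1
  obtain ⟨h0, h1, E, hE, hv, hle⟩ := hm.1 k hlt
  have hsum0 : ∀ inst : DecidablePred (fun s => m.vtx s ∈ E),
      ∑ s ∈ @Finset.filter _ (fun s => m.vtx s ∈ E) inst (range k), m.wt s = 0 := by
    intro inst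
    apply Finset.sum_eq_zero
    intro s hs
    simp only [mem_filter, mem_range] at hs
    exact hbefore s hs.1
  have hpos : 0 < m.wt k := lt_of_le_of_ne h0 (by rw [← hwk]; exact hk.symm)
  have hdisj : Disjoint E S := by
    by_contra hd
    rw [load_ind_not_disj hd, hsum0] at hle
    linarith
  have hsumk : ∑ s ∈ range k, m.wt s = 0 := by
    apply Finset.sum_eq_zero
    intro s hs
    exact hbefore s (by simpa using hs)
  have hone : m.wt k = 1 := by
    apply le_antisymm h1
    apply (hg k hlt).2
    refine ⟨⟨zero_le_one, le_rfl, E, hE, hv, ?_⟩, ?_⟩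
    · rw [load_ind_disj hdisj, hsum0]
      norm_num
    · rw [hsumk]
      norm_num
  have hafter : ∀ s, s ≠ k → m.w s = 0 := by
    intro s hs
    rcases lt_or_gt_of_ne hs with hs | hs
    · have := Nat.find_min hex hs
      push Not at this
      exact this
    · by_cases hsl : (s : ℕ∞) < m.len
      · have hnn : ∀ j ∈ range s, 0 ≤ m.wt j := by
          intro j hj
          have hj' : j < s := by simpa using hj
          exact (hm.1 j (lt_trans (by exact_mod_cast hj') hsl)).1
        have h2 : m.wt k ≤ ∑ j ∈ range s, m.wt j :=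
          Finset.single_le_sum hnn (by simpa using hs)
        have h3 := (hg s hsl).1.2
        have h4 := (hm.1 s hsl).1
        unfold Move.w
        rw [if_pos hsl]
        linarith
      · unfold Move.w
        rw [if_neg hsl]
  have hvS : m.vtx k ∉ S := fun hmem => (Finset.disjoint_left.mp hdisj hv) hmem
  refine ⟨m.vtx k, ⟨E, hE, hv, hdisj⟩, ?_, ?_⟩
  · funext v
    rw [ind_insert hvS]
    unfold Move.next
    rw [tsum_eq_single k]
    · rw [hwk, hone]
      by_cases hh : m.vtx k = v
      · simp [hh]
      · simp [hh]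
    · intro s hs
      rw [hafter s hs]
      simp
  · unfold Move.total
    rw [tsum_eq_single k hafter, hwk, hone]

/-- Edge-hitter's move: weight `1` on `u`. -/
def unit (u : Fin 5) : Move (Fin 5) := fin 1 (fun _ => u) (fun _ => 1)

theorem unit_total (u : Fin 5) : (unit u).total = 1 := by
  unfold unit
  rw [fin_total]
  simp

theorem unit_isMove {H : Finset (Finset (Fin 5))} {S : Finset (Fin 5)} {u : Fin 5}
    (hu : ∃ E ∈ H, u ∈ E ∧ Disjoint E S) : IsMove H (ind S) (unit u) := by
  obtain ⟨E, hE, hv, hd⟩ := hu
  unfold unit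
  apply Leg.isMove
  · intro k hk
    obtain rfl : k = 0 := by omega
    refine ⟨zero_le_one, le_rfl, E, hE, hv, ?_⟩
    rw [load_ind_disj hd]
    simp [acc]
  · left
    simp

theorem unit_next {H : Finset (Finset (Fin 5))} {S : Finset (Fin 5)} {u : Fin 5}
    (hu : ∃ E ∈ H, u ∈ E ∧ Disjoint E S) : (unit u).next (ind S) = ind (insert u S) := by
  classical
  obtain ⟨E, hE, hv, hd⟩ := hu
  have huS : u ∉ S := fun hmem => (Finset.disjoint_left.mp hd hv) hmem
  funext v
  rw [ind_insert huS]
  unfold Move.next
  rw [tsum_eq_single 0]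
  · unfold unit
    rw [fin_w]
    simp [fin]
  · intro s hs
    unfold unit
    rw [fin_w, if_neg (show ¬ s < 1 by omega)]
    simp

/-- Edge-hitter's answers in the game with integral moves. -/
theorem answers : ∀ v1 : Fin 5, (∃ E ∈ H0, v1 ∈ E ∧ Disjoint E ∅) →
    ∃ u1 : Fin 5, (∃ E ∈ H0, u1 ∈ E ∧ Disjoint E (insert v1 ∅)) ∧
      ∀ v2 : Fin 5, (∃ E ∈ H0, v2 ∈ E ∧ Disjoint E (insert u1 (insert v1 ∅))) →
        ∃ u2 : Fin 5, (∃ E ∈ H0, u2 ∈ E ∧ Disjoint E (insert v2 (insert u1 (insert v1 ∅)))) ∧
          ∀ E ∈ H0, ¬ Disjoint E (insert u2 (insert v2 (insert u1 (insert v1 ∅)))) := by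
  decide

theorem few_not_covering : ∀ S : Finset (Fin 5), S.card ≤ 3 → ¬ ∀ E ∈ H0, ¬ Disjoint E S := by
  decide

theorem greedy_bound (σ : Strategy (Fin 5)) (hl : LegalStrategy H0 (ind ∅) true σ)
    (hg : GreedyStrategy H0 (ind ∅) true σ) :
    ∃ h, CompletePlay H0 (ind ∅) h ∧ Follows true σ h ∧ playValue h ≤ 4 := by
  have hnc : ∀ S : Finset (Fin 5), S.card ≤ 3 → ¬ FullyCovered H0 (ind S) := by
    intro S hS
    rw [covered_ind]
    exact few_not_covering S hS
  have hc0 : ¬ FullyCovered H0 (ind ∅) := hnc _ (by simp)
  -- Staller's first move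
  have hs0 : StallerToMove H0 (ind ∅) true σ [] := by
    refine ⟨?_, ?_, ?_, ?_⟩
    · intro i hi
      simp at hi
    · intro i hi
      simp at hi
    · simpa [pos] using hc0
    · simp [StallerTurn]
  have hm1 : IsMove H0 (ind ∅) (σ []) := by simpa [pos] using hl [] hs0
  have hg1 : GreedyMove H0 (ind ∅) (σ []) := by simpa [pos] using hg [] hs0
  obtain ⟨v1, ha1, hn1, ht1⟩ := greedy_step hm1 hg1 hc0
  obtain ⟨u1, hb1, hans⟩ := answers v1 ha1
  have hc1 : ¬ FullyCovered H0 (ind (insert v1 ∅)) :=
    hnc _ ((Finset.card_insert_le _ _).trans (by simp))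
  have hc2 : ¬ FullyCovered H0 (ind (insert u1 (insert v1 ∅))) :=
    hnc _ ((Finset.card_insert_le _ _).trans
      (Nat.succ_le_succ ((Finset.card_insert_le _ _).trans (by simp))))
  have hp1 : pos (ind ∅) [σ []] = ind (insert v1 ∅) := by
    simpa [pos] using hn1
  have hp2 : pos (ind ∅) [σ [], unit u1] = ind (insert u1 (insert v1 ∅)) := by
    have : pos (ind ∅) [σ [], unit u1] = (unit u1).next (pos (ind ∅) [σ []]) := by
      simp [pos]
    rw [this, hp1, unit_next hb1]
  -- Staller's second move
  have hs2 : StallerToMove H0 (ind ∅) true σ [σ [], unit u1] := by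
    refine ⟨?_, ?_, ?_, ?_⟩
    · intro i hi
      have hi' : i < 2 := by simpa using hi
      interval_cases i
      · simpa [pos] using And.intro hc0 hm1
      · refine ⟨?_, ?_⟩
        · simpa [hp1] using hc1
        · simpa [hp1] using unit_isMove hb1
    · intro i hi hturn
      have hi' : i < 2 := by simpa using hi
      interval_cases i
      · simp
      · simp [StallerTurn] at hturn
    · rw [hp2]
      exact hc2
    · simp [StallerTurn]
  have hm2 := hl _ hs2
  have hg2 := hg _ hs2
  rw [hp2] at hm2 hg2
  obtain ⟨v2, ha2, hn2, ht2⟩ := greedy_step hm2 hg2 hc2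
  obtain ⟨u2, hb2, hfin⟩ := hans v2 ha2
  have hp3 : pos (ind ∅) [σ [], unit u1, σ [σ [], unit u1]] =
      ind (insert v2 (insert u1 (insert v1 ∅))) := by
    have : pos (ind ∅) [σ [], unit u1, σ [σ [], unit u1]] =
        (σ [σ [], unit u1]).next (pos (ind ∅) [σ [], unit u1]) := by
      simp [pos]
    rw [this, hp2, hn2]
  have hp4 : pos (ind ∅) [σ [], unit u1, σ [σ [], unit u1], unit u2] =
      ind (insert u2 (insert v2 (insert u1 (insert v1 ∅)))) := by
    have : pos (ind ∅) [σ [], unit u1, σ [σ [], unit u1], unit u2] =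
        (unit u2).next (pos (ind ∅) [σ [], unit u1, σ [σ [], unit u1]]) := by
      simp [pos]
    rw [this, hp3, unit_next hb2]
  have hc3 : ¬ FullyCovered H0 (ind (insert v2 (insert u1 (insert v1 ∅)))) :=
    hnc _ ((Finset.card_insert_le _ _).trans (Nat.succ_le_succ
      ((Finset.card_insert_le _ _).trans (Nat.succ_le_succ
        ((Finset.card_insert_le _ _).trans (by simp))))))
  refine ⟨[σ [], unit u1, σ [σ [], unit u1], unit u2], ⟨?_, ?_⟩, ?_, ?_⟩
  · intro i hi
    have hi' : i < 4 := by simpa using hi
    interval_cases i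
    · simpa [pos] using And.intro hc0 hm1
    · refine ⟨?_, ?_⟩
      · simpa [hp1] using hc1
      · simpa [hp1] using unit_isMove hb1
    · refine ⟨?_, ?_⟩
      · simpa [hp2] using hc2
      · simpa [hp2] using hm2
    · refine ⟨?_, ?_⟩
      · simpa [hp3] using hc3
      · simpa [hp3] using unit_isMove hb2
  · rw [hp4, covered_ind]
    exact hfin
  · intro i hi hturn
    have hi' : i < 4 := by simpa using hi
    interval_cases i
    · simp
    · simp [StallerTurn] at hturn
    · simp
    · simp only [StallerTurn, if_true] at hturn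
      exact absurd hturn (by decide)
  · simp only [playValue, List.map_cons, List.map_nil, List.sum_cons, List.sum_nil, ht1, ht2,
      unit_total]
    norm_num

/-! ### A better strategy of Staller -/

/-- Weight `1/6` on vertex `3`, `1/6` on vertex `4` and `2/3` on vertex `2`. -/
def mStart : Move (Fin 5) :=
  fin 3 (fun k => if k = 0 then 3 else if k = 1 then 4 else 2)
    (fun k => if k = 2 then 2 / 3 else 1 / 6)

theorem mStart_isMove : IsMove H0 (ind ∅) mStart := by
  unfold mStart
  apply Leg.isMove
  · intro k hk
    interval_cases k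
    · refine ⟨by norm_num, by norm_num, {3, 4}, by decide, by simp, ?_⟩
      rw [load_ind_disj (by simp)]
      simp [acc]
      norm_num
    · refine ⟨by norm_num, by norm_num, {1, 4}, by decide, by simp, ?_⟩
      rw [load_ind_disj (by simp), acc_succ]
      simp [acc]
      norm_num
    · refine ⟨by norm_num, by norm_num, {2}, by decide, by simp, ?_⟩
      rw [load_ind_disj (by simp), acc_succ, acc_succ]
      simp [acc]
      norm_num
  · left
    simp [Finset.sum_range_succ]
    norm_num

theorem fin_next (n : ℕ) (vtx : ℕ → Fin 5) (wt : ℕ → ℝ) (t : Fin 5 → ℝ) (v : Fin 5) :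
    (fin n vtx wt).next t v = t v + ∑ k ∈ range n, if vtx k = v then wt k else 0 := by
  classical
  unfold Move.next
  rw [tsum_eq_sum (s := range n)]
  · congr 1
    apply Finset.sum_congr rfl
    intro k hk
    rw [fin_w, if_pos (show k < n by simpa using hk)]
    by_cases h : vtx k = v
    · rw [if_pos h, if_pos (show (fin n vtx wt).vtx k = v from h)]
    · rw [if_neg h, if_neg (show ¬ (fin n vtx wt).vtx k = v from h)]
  · intro k hk
    rw [fin_w, if_neg (show ¬ k < n by simpa using hk)]
    simp

theorem mStart_next : mStart.next (ind ∅) 0 = 0 ∧ mStart.next (ind ∅) 1 = 0 ∧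
    mStart.next (ind ∅) 2 = 2 / 3 ∧ mStart.next (ind ∅) 3 = 1 / 6 ∧
    mStart.next (ind ∅) 4 = 1 / 6 := by
  unfold mStart
  simp [fin_next, Finset.sum_range_succ, ind]

theorem second (t : Fin 5 → ℝ) (h2 : 2 / 3 ≤ t 2)
    (h3 : 1 / 6 ≤ t 3) (h4 : 1 / 6 ≤ t 4) (hs : t 0 + t 1 + t 2 + t 3 + t 4 = 2) :
    ∃ m, IsMove H0 t m ∧ 4 / 3 ≤ m.next t 3 + m.next t 4 := by
  have hpair : ∀ f : Fin 5 → ℝ, ∑ v ∈ ({3, 4} : Finset (Fin 5)), f v = f 3 + f 4 := by
    intro f
    rw [Finset.sum_pair (by decide)]
  by_cases hfull : 1 ≤ t 3 + t 4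
  · -- the edge `{3,4}` is already full
    rcases le_or_gt (t 0 + t 3) (2 / 3) with hd | hd
    · obtain ⟨m, hm, hle⟩ := Leg.extend (H := H0) (t := t) (n := 1) (vtx := fun _ => 3)
        (wt := fun _ => 1 / 3) empty_notMem (by
          intro k hk
          obtain rfl : k = 0 := by omega
          refine ⟨by norm_num, by norm_num, {0, 3}, by decide, by simp, ?_⟩
          have : load t {0, 3} ≤ t 0 + t 3 := by
            unfold load
            rw [Finset.sum_pair (by decide)]
            exact min_le_right _ _
          simp only [acc, range_zero, filter_empty, sum_empty]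
          linarith) (by norm_num) {3, 4}
      refine ⟨m, hm, ?_⟩
      rw [hpair, hpair, acc_succ] at hle
      simp [acc] at hle
      linarith
    · obtain ⟨m, hm, hle⟩ := Leg.extend (H := H0) (t := t) (n := 1) (vtx := fun _ => 4)
        (wt := fun _ => 1 / 3) empty_notMem (by
          intro k hk
          obtain rfl : k = 0 := by omega
          refine ⟨by norm_num, by norm_num, {1, 4}, by decide, by simp, ?_⟩
          have : load t {1, 4} ≤ t 1 + t 4 := by
            unfold load
            rw [Finset.sum_pair (by decide)]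
            exact min_le_right _ _
          simp only [acc, range_zero, filter_empty, sum_empty]
          linarith) (by norm_num) {3, 4}
      refine ⟨m, hm, ?_⟩
      rw [hpair, hpair, acc_succ] at hle
      simp [acc] at hle
      linarith
  · push Not at hfull
    have hload : load t {3, 4} ≤ t 3 + t 4 := by
      unfold load
      rw [Finset.sum_pair (by decide)]
      exact min_le_right _ _
    rcases le_or_gt (t 1 + t 4) (2 / 3) with hd | hd
    · obtain ⟨m, hm, hle⟩ := Leg.extend (H := H0) (t := t) (n := 2)
        (vtx := fun k => if k = 0 then 3 else 4)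
        (wt := fun k => if k = 0 then 1 - (t 3 + t 4) else 1 / 3) empty_notMem (by
          intro k hk
          interval_cases k
          · refine ⟨by simp; linarith, by simp; linarith, {3, 4}, by decide, by simp, ?_⟩
            simp only [acc, range_zero, filter_empty, sum_empty, if_true]
            linarith
          · refine ⟨by norm_num, by norm_num, {1, 4}, by decide, by simp, ?_⟩
            have : load t {1, 4} ≤ t 1 + t 4 := by
              unfold load
              rw [Finset.sum_pair (by decide)]
              exact min_le_right _ _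
            rw [acc_succ]
            simp [acc]
            linarith) (by simp [Finset.sum_range_succ]; linarith) {3, 4}
      refine ⟨m, hm, ?_⟩
      rw [hpair, hpair, acc_succ, acc_succ] at hle
      simp [acc] at hle
      linarith
    · obtain ⟨m, hm, hle⟩ := Leg.extend (H := H0) (t := t) (n := 2)
        (vtx := fun k => if k = 0 then 4 else 3)
        (wt := fun k => if k = 0 then 1 - (t 3 + t 4) else 1 / 3) empty_notMem (by
          intro k hk
          interval_cases k
          · refine ⟨by simp; linarith, by simp; linarith, {3, 4}, by decide, by simp, ?_⟩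
            simp only [acc, range_zero, filter_empty, sum_empty, if_true]
            linarith
          · refine ⟨by norm_num, by norm_num, {0, 3}, by decide, by simp, ?_⟩
            have : load t {0, 3} ≤ t 0 + t 3 := by
              unfold load
              rw [Finset.sum_pair (by decide)]
              exact min_le_right _ _
            rw [acc_succ]
            simp [acc]
            linarith) (by simp [Finset.sum_range_succ]; linarith) {3, 4}
      refine ⟨m, hm, ?_⟩
      rw [hpair, hpair, acc_succ, acc_succ] at hle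
      simp [acc] at hle
      linarith

open Classical in
/-- Staller's strategy. -/
def better : Strategy (Fin 5) := fun h =>
  if h = [] then mStart
  else if h2 : ∃ m, IsMove H0 (pos (ind ∅) h) m ∧
      4 / 3 ≤ m.next (pos (ind ∅) h) 3 + m.next (pos (ind ∅) h) 4 then h2.choose
  else if h3 : ∃ m, IsMove H0 (pos (ind ∅) h) m then h3.choose
  else mStart

theorem better_legal : LegalStrategy H0 (ind ∅) true better := by
  intro h _
  unfold better
  split_ifs with h1 h2 h3
  · subst h1
    simpa [pos] using mStart_isMove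
  · exact h2.choose_spec.1
  · exact h3.choose_spec
  · exact absurd (exists_move empty_notMem) h3

theorem better_guarantees : Guarantees H0 (ind ∅) true better (13 / 3) := by
  intro h hc hf
  have hH := hc.1
  have hfin := (covered_iff _).mp hc.2
  have hsum : ∀ t : Fin 5 → ℝ, ∑ v, t v = t 0 + t 1 + t 2 + t 3 + t 4 := by
    intro t
    rw [Fin.sum_univ_five]
  have hval : ∀ i ≤ h.length, pos (ind ∅) (h.take i) 0 + pos (ind ∅) (h.take i) 1 +
      pos (ind ∅) (h.take i) 2 + pos (ind ∅) (h.take i) 3 + pos (ind ∅) (h.take i) 4 =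
      playValue (h.take i) := by
    intro i hi
    rw [← hsum, hH.sum_pos i hi]
    simp [ind]
  have hlen : 3 ≤ h.length := by
    by_contra hcon
    push Not at hcon
    have h1 := hval h.length le_rfl
    have h2 := hH.value_le h.length le_rfl
    rw [List.take_length] at h1 h2
    have h3 : (h.length : ℝ) ≤ 2 := by exact_mod_cast Nat.lt_succ_iff.mp hcon
    linarith [hfin.1, hfin.2.1, hfin.2.2.1, hfin.2.2.2.2.2]
  -- first move
  have hm0 : h[0] = mStart := by
    have := hf 0 (by omega) (by simp [StallerTurn])
    rw [this]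
    simp [better]
  have hp1 : pos (ind ∅) (h.take 1) = mStart.next (ind ∅) := by
    have := pos_take_succ (t0 := ind ∅) (h := h) 0 (by omega)
    rw [this, hm0]
    simp [pos]
  have hst := mStart_next
  rw [← hp1] at hst
  have hmono : ∀ v, pos (ind ∅) (h.take 1) v ≤ pos (ind ∅) (h.take 2) v :=
    fun v => hH.mono (by omega) (by omega) v
  -- value after two moves
  have hv2 : playValue (h.take 2) = 2 := by
    have e1 : h.take 2 = [h[0], h[1]] := by
      rw [List.take_succ_eq_append_getElem (by omega), List.take_succ_eq_append_getElem (by omega)]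
      simp
    have t0 : h[0].total = 1 := by
      rw [hm0]
      unfold mStart
      rw [fin_total]
      simp [Finset.sum_range_succ]
      norm_num
    have t1 : h[1].total = 1 := by
      rcases (hH 1 (by omega)).2.2.2 with hx | hx
      · exact hx
      · exfalso
        rw [← pos_take_succ] at hx
        exact (hH 2 (by omega)).1 hx.2
    rw [e1]
    simp only [playValue, List.map_cons, List.map_nil, List.sum_cons, List.sum_nil, t0, t1]
    norm_num
  have hs2 := hval 2 (by omega)
  rw [hv2] at hs2
  obtain ⟨a0, a1, a2, a3, a4⟩ := hst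
  have hsec := second (pos (ind ∅) (h.take 2)) (by linarith [hmono 2]) (by linarith [hmono 3]) (by linarith [hmono 4]) hs2
  have hm2 : 4 / 3 ≤ pos (ind ∅) (h.take 3) 3 + pos (ind ∅) (h.take 3) 4 := by
    rw [pos_take_succ (t0 := ind ∅) (h := h) 2 (by omega)]
    have hne : ¬ h.take 2 = [] := by
      intro hcon
      rw [List.take_eq_nil_iff] at hcon
      rcases hcon with hcon | hcon
      · omega
      · rw [hcon] at hlen
        simp at hlen
    have : h[2] = hsec.choose := by
      rw [hf 2 (by omega) (by simp [StallerTurn])]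
      unfold better
      rw [if_neg hne, dif_pos hsec]
    rw [this]
    exact hsec.choose_spec.2
  have hmono3 : ∀ v, pos (ind ∅) (h.take 3) v ≤ pos (ind ∅) h v := by
    intro v
    have := hH.mono (i := 3) (j := h.length) hlen le_rfl v
    rwa [List.take_length] at this
  have hv := hval h.length le_rfl
  rw [List.take_length] at hv
  linarith [hfin.1, hfin.2.1, hfin.2.2.1, hmono3 3, hmono3 4]

/-- There is a hypergraph on five vertices such that, from the all-zero start and with Staller
moving first, Staller can guarantee `13/3`, while every strategy using only submoves of the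
largest legal weight can be held to `4`; so no such strategy is optimal. -/
theorem result :
    ∃ H : Finset (Finset (Fin 5)), ∅ ∉ H ∧ ¬ FullyCovered H (fun _ => 0) ∧
      (∀ h, History H (fun _ => 0) h → h.length ≤ 6) ∧
      (∃ σ, LegalStrategy H (fun _ => 0) true σ ∧ Guarantees H (fun _ => 0) true σ (13 / 3)) ∧
      (∃ σ, LegalStrategy H (fun _ => 0) true σ ∧ GreedyStrategy H (fun _ => 0) true σ) ∧
      ∀ σ, LegalStrategy H (fun _ => 0) true σ → GreedyStrategy H (fun _ => 0) true σ →
        (∃ h, CompletePlay H (fun _ => 0) h ∧ Follows true σ h ∧ playValue h ≤ 4) ∧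
        ¬ Optimal H (fun _ => 0) true σ := by
  refine ⟨H0, empty_notMem, ?_, ?_, ?_, exists_greedy_strategy empty_notMem _ _, ?_⟩
  · rw [covered_iff]
    norm_num
  · intro h hh
    exact hh.length_le (fun _ => by norm_num)
  · rw [← ind_empty]
    exact ⟨better, better_legal, better_guarantees⟩
  · rw [← ind_empty]
    intro σ hl hg
    obtain ⟨h, hc, hf, hv⟩ := greedy_bound σ hl hg
    refine ⟨⟨h, hc, hf, hv⟩, ?_⟩
    intro hopt
    have := hopt.2 better (13 / 3) better_legal better_guarantees h hc hf
    linarith

end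

end Pool.Agent.Results.MP_c71ca1_co.GreedyStaller
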